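import Pool.Agent.Lib_helper9.Heat.Own

/-!
# Gaussian heat smoothing fails for high-degree Hermite expansions (`p = 4/3`)

For `p = 4/3` there is no constant `c > 0` with `‖P_t f‖_p ≤ e^{- t d c} ‖f‖_p` for all `d, n ≥ 1`,
all `f ∈ W_{≥ d}` and all `t ≥ 0`.  More precisely there is not even any decay on the time scale
`1 / d`.
-/

set_option autoImplicit false

namespace Pool.Agent.Results.MP_5c2e50_an.NoDecayFourThirds

open MeasureTheory ProbabilityTheory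

/-- The standard Gaussian probability measure `γ_n` on `ℝ^n`. -/
noncomputable def gaussian (n : ℕ) : Measure (Fin n → ℝ) :=
  Measure.pi fun _ => gaussianReal 0 1

/-- `H_k(x) = ∏ i, h_{k i}(x i)`, where `h_j` is the probabilists' Hermite polynomial of degree
`j`: `h_0 = 1`, `h_{j+1} = X h_j - h_j'`. -/
noncomputable def H {n : ℕ} (k : Fin n → ℕ) (x : Fin n → ℝ) : ℝ :=
  ∏ i, Polynomial.aeval (x i) (Polynomial.hermite (k i))

/-- `W_{≥ d}`: the linear span of the functions `H_k` with `|k| = ∑ i, k i ≥ d` on `ℝ^n`. -/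
noncomputable def W (d n : ℕ) : Submodule ℝ ((Fin n → ℝ) → ℝ) :=
  Submodule.span ℝ {f | ∃ k : Fin n → ℕ, d ≤ ∑ i, k i ∧ f = H k}

/-- The Ornstein-Uhlenbeck semigroup
`P_t f (x) = ∫ f (e^{-t} x + √(1 - e^{-2t}) y) dγ_n(y)`. -/
noncomputable def P {n : ℕ} (t : ℝ) (f : (Fin n → ℝ) → ℝ) (x : Fin n → ℝ) : ℝ :=
  ∫ y, f (Real.exp (-t) • x + Real.sqrt (1 - Real.exp (-2 * t)) • y) ∂(gaussian n)

/-- The norm of `L_p(ℝ^n, γ_n)`. -/
noncomputable def gaussianNorm {n : ℕ} (p : ENNReal) (f : (Fin n → ℝ) → ℝ) : ENNReal :=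
  eLpNorm f p (gaussian n)

/-- **Heat smoothing fails for `p = 4/3`.**  (1) For every `c > 0` there are `d, n ≥ 1`,
`f ∈ W_{≥ d}` on `ℝ^n` and `t ≥ 0` with `‖P_t f‖_{4/3} > e^{- t d c} ‖f‖_{4/3}`.  (2) For every
`s > 0` there are `d, n ≥ 1` and `f ∈ W_{≥ d}` on `ℝ^n` with `‖f‖_{4/3} ≤ 1` and
`‖P_{s / d} f‖_{4/3} ≥ e^{-12} / 6400`. -/
theorem result :
    (∀ c : ℝ, 0 < c → ∃ (d n : ℕ) (f : (Fin n → ℝ) → ℝ) (t : ℝ), 1 ≤ d ∧ 1 ≤ n ∧ f ∈ W d n ∧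
      0 ≤ t ∧ ENNReal.ofReal (Real.exp (-(t * d * c))) * gaussianNorm (4 / 3) f <
        gaussianNorm (4 / 3) (P t f)) ∧
    (∀ s : ℝ, 0 < s → ∃ (d n : ℕ) (f : (Fin n → ℝ) → ℝ), 1 ≤ d ∧ 1 ≤ n ∧ f ∈ W d n ∧
      gaussianNorm (4 / 3) f ≤ 1 ∧
        ENNReal.ofReal (Real.exp (-12) / 6400) ≤ gaussianNorm (4 / 3) (P (s / d) f)) := by
  refine ⟨fun c hc => ?_, fun s hs => Lib9.Heat.own_core s hs⟩
  obtain ⟨K, hK0, hK⟩ : ∃ K : ℝ, 0 < K ∧ Real.exp (-(K * c)) < Real.exp (-12) / 6400 := by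
    have h0 : 0 < Real.exp (-12) / 6400 := by positivity
    refine ⟨(|Real.log (Real.exp (-12) / 6400)| + 1) / c, by positivity, ?_⟩
    rw [div_mul_cancel₀ _ hc.ne']
    conv_rhs => rw [← Real.exp_log h0]
    apply Real.exp_lt_exp.mpr
    linarith [neg_abs_le (Real.log (Real.exp (-12) / 6400))]
  obtain ⟨d, n, f, hd, hn, hf, h1, h2⟩ := Lib9.Heat.own_core K hK0
  have hd0 : (d : ℝ) ≠ 0 := by
    have : (1 : ℝ) ≤ d := by exact_mod_cast hd
    positivity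
  refine ⟨d, n, f, K / d, hd, hn, hf, by positivity, ?_⟩
  rw [div_mul_cancel₀ _ hd0]
  calc ENNReal.ofReal (Real.exp (-(K * c))) * gaussianNorm (4 / 3) f
      ≤ ENNReal.ofReal (Real.exp (-(K * c))) * 1 := by
        gcongr
        exact h1
    _ = ENNReal.ofReal (Real.exp (-(K * c))) := mul_one _
    _ < ENNReal.ofReal (Real.exp (-12) / 6400) :=
        (ENNReal.ofReal_lt_ofReal_iff (by positivity)).2 hK
    _ ≤ gaussianNorm (4 / 3) (P (K / d) f) := h2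

end Pool.Agent.Results.MP_5c2e50_an.NoDecayFourThirds
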